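import Mathlib

/-! The descent for balls avoiding the skeleta of a simplex. The content of this file is taken from the
library file `Pool/Graph/R_pool_sql_team_919ec72e/S10849.lean`. -/

set_option autoImplicit false

namespace Pool.Agent.H101.BF

section Aux
open Finset
variable {ι : Type*} [Fintype ι] [DecidableEq ι] {E : Type*} [NormedAddCommGroup E] [InnerProductSpace ℝ E]

/-- weights on the face S -/
def Spx (S : Finset ι) : Set (ι → ℝ) := {w | (∀ i, 0 ≤ w i) ∧ (∀ i, i ∉ S → w i = 0) ∧ ∑ i, w i = 1}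

noncomputable def LL (v : ι → E) (w : ι → ℝ) : E := ∑ i, w i • v i

noncomputable def qq (v : ι → E) (a : ι → ℝ) (w : ι → ℝ) : ℝ := ∑ i, a i * w i - ‖LL v w‖ ^ 2

noncomputable def VV (v : ι → E) (w : ι → ℝ) : ℝ := ∑ i, w i * ‖v i‖ ^ 2 - ‖LL v w‖ ^ 2

omit [DecidableEq ι] in
theorem LL_add_smul (v : ι → E) (g u : ι → ℝ) (t : ℝ) :
    LL v (fun i => g i + t * u i) = LL v g + t • LL v u := by
  simp only [LL, add_smul, sum_add_distrib, smul_sum, mul_smul]

omit [DecidableEq ι] in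
theorem qq_add (v : ι → E) (a g u : ι → ℝ) (t : ℝ) :
    qq v a (fun i => g i + t * u i) =
      qq v a g + t * (∑ i, a i * u i - 2 * inner ℝ (LL v g) (LL v u)) - t ^ 2 * ‖LL v u‖ ^ 2 := by
  unfold qq
  rw [LL_add_smul, norm_add_sq_real, norm_smul, inner_smul_right, mul_pow, Real.norm_eq_abs, sq_abs]
  have : ∑ i, a i * (g i + t * u i) = ∑ i, a i * g i + t * ∑ i, a i * u i := by
    rw [mul_sum, ← sum_add_distrib]; apply sum_congr rfl; intro i _; ring
  rw [this]; ring

omit [DecidableEq ι] in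
theorem VV_eq (v : ι → E) (w : ι → ℝ) (hw : ∑ i, w i = 1) :
    VV v w = ∑ i, w i * ‖v i - LL v w‖ ^ 2 := by
  unfold VV
  have h1 : ∀ i, w i * ‖v i - LL v w‖ ^ 2 =
      w i * ‖v i‖ ^ 2 - 2 * inner ℝ (w i • v i) (LL v w) + w i * ‖LL v w‖ ^ 2 := by
    intro i; rw [norm_sub_sq_real, inner_smul_left]; simp; ring
  simp only [h1, sum_add_distrib, sum_sub_distrib, ← mul_sum, ← sum_mul, hw, ← sum_inner]
  have : (∑ i, w i • v i) = LL v w := rfl
  rw [this, real_inner_self_eq_norm_sq]; ring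

omit [DecidableEq ι] in
theorem Spx_compact (S : Finset ι) : IsCompact (Spx S) := by
  have h : Spx S = stdSimplex ℝ ι ∩ {w | ∀ i, i ∉ S → w i = 0} := by
    ext w; simp only [Spx, stdSimplex, Set.mem_ofPred_eq, Set.mem_inter_iff]; tauto
  rw [h]
  apply (isCompact_stdSimplex ℝ ι).inter_right
  have : {w : ι → ℝ | ∀ i, i ∉ S → w i = 0} = ⋂ i, ⋂ (_ : i ∉ S), {w : ι → ℝ | w i = 0} := by
    ext w; simp
  rw [this]
  exact isClosed_iInter fun i => isClosed_iInter fun _ =>
    isClosed_eq (continuous_apply i) continuous_const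

omit [DecidableEq ι] in
theorem qq_cont (v : ι → E) (a : ι → ℝ) : Continuous (qq v a) := by
  unfold qq LL; fun_prop

omit [DecidableEq ι] in
/-- first exit time from the face -/
theorem exit_time (S : Finset ι) (g u : ι → ℝ) (hg : g ∈ Spx S) (hpos : ∀ i ∈ S, 0 < g i)
    (hu0 : ∀ i, i ∉ S → u i = 0) (hus : ∑ i, u i = 0) (i : ι) (hi : u i < 0) :
    ∃ t : ℝ, 0 < t ∧ t * (-u i) ≤ g i ∧ (∀ s, 0 ≤ s → s ≤ t → (fun j => g j + s * u j) ∈ Spx S) ∧
      ∃ j ∈ S, g j + t * u j = 0 := by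
  classical
  have hiS : i ∈ S := by by_contra h; have := hu0 i h; linarith
  obtain ⟨j, hj, hmin⟩ := exists_min_image (S.filter fun j => u j < 0) (fun j => g j / (-u j))
    ⟨i, by simp [hiS, hi]⟩
  rw [mem_filter] at hj
  have hj2 : 0 < -u j := by linarith [hj.2]
  have key : ∀ l, u l < 0 → g j / (-u j) * (-u l) ≤ g l := by
    intro l hl
    have hlS : l ∈ S := by by_contra h; have := hu0 l h; linarith
    have := hmin l (by simp [hlS, hl])
    have hl2 : 0 < -u l := by linarith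
    rwa [le_div_iff₀ hl2] at this
  refine ⟨g j / (-u j), div_pos (hpos j hj.1) hj2, key i hi, ?_, j, hj.1, ?_⟩
  · intro s hs0 hst
    refine ⟨fun l => ?_, fun l hl => ?_, ?_⟩
    · by_cases hl : u l < 0
      · have := key l hl
        have h2 : s * (-u l) ≤ g j / (-u j) * (-u l) :=
          mul_le_mul_of_nonneg_right hst (by linarith)
        linarith
      · push Not at hl
        have := hg.1 l
        positivity
    · simp [hg.2.1 l hl, hu0 l hl]
    · rw [sum_add_distrib, ← mul_sum, hus, hg.2.2]; ring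
  · have : u j ≠ 0 := ne_of_lt hj.2
    field_simp; ring

theorem one_step (S : Finset ι) (v : ι → E) (a : ι → ℝ)
    (hb : ∀ w ∈ Spx S, (∃ j ∈ S, w j = 0) → qq v a w ≤ 0) (l : ι → ℝ) (hl : l ∈ Spx S) :
    ((S.card : ℝ) - 1) ^ 2 * qq v a l ≤ VV v l := by
  have hV := VV_eq v l hl.2.2
  have hV0 : 0 ≤ VV v l := by
    rw [hV]; exact sum_nonneg fun i _ => mul_nonneg (hl.1 i) (sq_nonneg _)
  by_cases hq : qq v a l ≤ 0
  · have := mul_nonpos_of_nonneg_of_nonpos (sq_nonneg ((S.card : ℝ) - 1)) hq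
    linarith
  push Not at hq
  obtain ⟨g, hg, hmax⟩ := (Spx_compact S).exists_isMaxOn ⟨l, hl⟩ (qq_cont v a).continuousOn
  have hR : 0 < qq v a g := lt_of_lt_of_le hq (hmax hl)
  have hpos : ∀ w ∈ Spx S, 0 < qq v a w → ∀ i ∈ S, 0 < w i := by
    intro w hw h i hi
    rcases (hw.1 i).lt_or_eq with h1 | h1
    · exact h1
    · have := hb w hw ⟨i, hi, h1.symm⟩; linarith
  have hgp := hpos g hg hR
  have hlp := hpos l hl hq
  -- the linear term is nonpositive in every tangent direction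
  have hlin1 : ∀ u : ι → ℝ, (∀ i, i ∉ S → u i = 0) → ∑ i, u i = 0 →
      ∑ i, a i * u i - 2 * inner ℝ (LL v g) (LL v u) ≤ 0 := by
    intro u hu0 hus
    by_cases hneg : ∃ i, u i < 0
    · obtain ⟨i, hi⟩ := hneg
      obtain ⟨t, ht, -, hin, -⟩ := exit_time S g u hg hgp hu0 hus i hi
      by_contra hc
      push Not at hc
      set A := ∑ i, a i * u i - 2 * inner ℝ (LL v g) (LL v u) with hA
      set B := ‖LL v u‖ ^ 2 with hB
      have hB0 : 0 ≤ B := sq_nonneg _
      have hs : 0 < min t (A / (B + 1)) := lt_min ht (by positivity)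
      have h1 := hmax (hin _ hs.le (min_le_left _ _))
      simp only [Set.mem_ofPred_eq] at h1
      rw [qq_add, ← hA, ← hB] at h1
      have h2 : min t (A / (B + 1)) * (B + 1) ≤ A := by
        rw [← le_div_iff₀ (by positivity)]; exact min_le_right _ _
      nlinarith
    · push Not at hneg
      have : ∀ i, u i = 0 := by
        intro i
        have := (sum_eq_zero_iff_of_nonneg (fun i _ => hneg i)).1 hus i (mem_univ _)
        exact this
      simp [this, LL]
  have hLneg : ∀ u : ι → ℝ, LL v (fun i => -u i) = -LL v u := by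
    intro u; simp [LL]
  have hlin : ∀ u : ι → ℝ, (∀ i, i ∉ S → u i = 0) → ∑ i, u i = 0 →
      ∑ i, a i * u i - 2 * inner ℝ (LL v g) (LL v u) = 0 := by
    intro u hu0 hus
    have h1 := hlin1 u hu0 hus
    have h2 := hlin1 (fun i => -u i) (fun i hi => by simp [hu0 i hi]) (by simp [hus])
    rw [hLneg, inner_neg_right] at h2
    simp only [mul_neg, sum_neg_distrib] at h2
    linarith
  have claim1 : ∀ u : ι → ℝ, (∀ i, i ∉ S → u i = 0) → ∑ i, u i = 0 → ∀ i, u i < 0 →
      u i ^ 2 * qq v a g ≤ g i ^ 2 * ‖LL v u‖ ^ 2 := by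
    intro u hu0 hus i hi
    obtain ⟨t, ht, hti, hin, j, hj, hj0⟩ := exit_time S g u hg hgp hu0 hus i hi
    have h1 := hb _ (hin t ht.le le_rfl) ⟨j, hj, hj0⟩
    rw [qq_add, hlin u hu0 hus] at h1
    have h2 : qq v a g ≤ t ^ 2 * ‖LL v u‖ ^ 2 := by linarith
    have h3 : (t * (-u i)) ^ 2 ≤ g i ^ 2 :=
      pow_le_pow_left₀ (mul_nonneg ht.le (by linarith)) hti 2
    calc u i ^ 2 * qq v a g ≤ u i ^ 2 * (t ^ 2 * ‖LL v u‖ ^ 2) :=
          mul_le_mul_of_nonneg_left h2 (sq_nonneg _)
      _ = (t * (-u i)) ^ 2 * ‖LL v u‖ ^ 2 := by ring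
      _ ≤ _ := mul_le_mul_of_nonneg_right h3 (sq_nonneg _)
  have claim : ∀ u : ι → ℝ, (∀ i, i ∉ S → u i = 0) → ∑ i, u i = 0 → ∀ i,
      u i ^ 2 * qq v a g ≤ g i ^ 2 * ‖LL v u‖ ^ 2 := by
    intro u hu0 hus i
    rcases lt_trichotomy (u i) 0 with h | h | h
    · exact claim1 u hu0 hus i h
    · rw [h]; simp; positivity
    · have := claim1 (fun i => -u i) (fun i hi => by simp [hu0 i hi]) (by simp [hus]) i
        (by simpa using h)
      rw [hLneg, norm_neg] at this
      simpa using this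
  -- direction from g to l
  have hs0 : ∀ i, i ∉ S → l i - g i = 0 := fun i hi => by simp [hl.2.1 i hi, hg.2.1 i hi]
  have hss : ∑ i, (l i - g i) = 0 := by rw [sum_sub_distrib, hl.2.2, hg.2.2]; ring
  have hql : qq v a l = qq v a g - ‖LL v (fun i => l i - g i)‖ ^ 2 := by
    have := qq_add v a g (fun i => l i - g i) 1
    rw [hlin _ hs0 hss] at this
    simp only [one_mul, add_sub_cancel] at this
    rw [this]; ring
  have hB : ∀ i, g i ^ 2 * qq v a l ≤ qq v a g * (l i * (2 * g i - l i)) := by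
    intro i
    have := claim _ hs0 hss i
    rw [hql]; nlinarith
  have hA : ∀ i ∈ S, (1 - l i) ^ 2 * qq v a g ≤ g i ^ 2 * ‖v i - LL v l‖ ^ 2 := by
    intro i hi
    have := claim (fun j => (if j = i then 1 else 0) - l j)
      (fun j hj => by
        have : j ≠ i := fun h => hj (h ▸ hi)
        simp [this, hl.2.1 j hj])
      (by rw [sum_sub_distrib, hl.2.2]; simp) i
    have e : LL v (fun j => (if j = i then 1 else 0) - l j) = v i - LL v l := by
      simp [LL, sub_smul, sum_sub_distrib]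
    rw [e] at this
    simpa using this
  have hb0 : ∀ i ∈ S, 0 ≤ 2 * g i - l i := by
    intro i hi
    have h1 := hB i
    have h2 : 0 ≤ g i ^ 2 * qq v a l := by positivity
    have h3 : 0 ≤ qq v a g * (l i * (2 * g i - l i)) := le_trans h2 h1
    have h4 := nonneg_of_mul_nonneg_right h3 hR
    exact nonneg_of_mul_nonneg_right h4 (hlp i hi)
  have hC : ∀ i ∈ S, (1 - l i) ^ 2 ≤ ((2 * g i - l i) / qq v a l) * (l i * ‖v i - LL v l‖ ^ 2) := by
    intro i hi
    rw [div_mul_eq_mul_div, le_div_iff₀ hq]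
    have h1 := mul_le_mul_of_nonneg_right (hA i hi) hq.le
    have h2 := mul_le_mul_of_nonneg_right (hB i) (sq_nonneg ‖v i - LL v l‖)
    have h3 : qq v a g * ((1 - l i) ^ 2 * qq v a l) ≤
        qq v a g * ((2 * g i - l i) * (l i * ‖v i - LL v l‖ ^ 2)) := by nlinarith
    exact le_of_mul_le_mul_left h3 hR
  have hCS := sum_sq_le_sum_mul_sum_of_sq_le_mul S
    (f := fun i => (2 * g i - l i) / qq v a l) (g := fun i => l i * ‖v i - LL v l‖ ^ 2)
    (r := fun i => 1 - l i)
    (fun i hi => div_nonneg (hb0 i hi) hq.le)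
    (fun i _ => mul_nonneg (hl.1 i) (sq_nonneg _)) hC
  have sS : ∀ w ∈ Spx S, ∑ i ∈ S, w i = 1 := by
    intro w hw
    rw [← hw.2.2]; exact sum_subset (subset_univ _) fun i _ hi => hw.2.1 i hi
  have e1 : ∑ i ∈ S, (1 - l i) = (S.card : ℝ) - 1 := by
    rw [sum_sub_distrib, sS l hl]; simp
  have e2 : ∑ i ∈ S, (2 * g i - l i) / qq v a l = 1 / qq v a l := by
    rw [← sum_div, sum_sub_distrib, ← mul_sum, sS l hl, sS g hg]; norm_num
  have e3 : ∑ i ∈ S, l i * ‖v i - LL v l‖ ^ 2 = VV v l := by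
    rw [hV]; exact sum_subset (subset_univ _) fun i _ hi => by simp [hl.2.1 i hi]
  rw [e1, e2, e3, div_mul_eq_mul_div, one_mul, le_div_iff₀ hq] at hCS
  exact hCS

theorem multi_step (r : ℕ) (hr : 1 ≤ r) (v : ι → E) (a : ι → ℝ) (m : ℕ) (hm : r ≤ m) :
    ∀ S : Finset ι, S.card = m → (∀ T ⊆ S, T.card = r → ∀ w ∈ Spx T, qq v a w ≤ 0) →
      ∀ l ∈ Spx S, qq v a l ≤ ((m : ℝ) - r) / (r * ((m : ℝ) - 1)) * VV v l := by
  induction m, hm using Nat.le_induction with
  | base =>
    intro S hS h l hl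
    have := h S Subset.rfl hS l hl
    simpa using this
  | succ m hm ih =>
    intro S hS h l hl
    set c : ℝ := ((m : ℝ) - r) / (r * ((m : ℝ) - 1)) with hc
    have hr' : (1 : ℝ) ≤ r := by exact_mod_cast hr
    have hm' : (r : ℝ) ≤ m := by exact_mod_cast hm
    have hm1 : (1 : ℝ) ≤ m := le_trans hr' hm'
    have hc1 : c ≤ 1 := by
      rw [hc]
      apply div_le_one_of_le₀
      · nlinarith
      · apply mul_nonneg <;> linarith
    have hk : 0 ≤ 1 - c := by linarith
    have hLL : ∀ w, ‖LL (fun i => Real.sqrt (1 - c) • v i) w‖ ^ 2 = (1 - c) * ‖LL v w‖ ^ 2 := by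
      intro w
      have : LL (fun i => Real.sqrt (1 - c) • v i) w = Real.sqrt (1 - c) • LL v w := by
        simp only [LL, smul_sum]; apply sum_congr rfl; intro i _; rw [smul_comm]
      rw [this, norm_smul, mul_pow, Real.norm_eq_abs, sq_abs, Real.sq_sqrt hk]
    have hq : ∀ w, qq (fun i => Real.sqrt (1 - c) • v i) (fun i => a i - c * ‖v i‖ ^ 2) w =
        qq v a w - c * VV v w := by
      intro w
      unfold qq VV
      rw [hLL]
      have : ∑ i, (a i - c * ‖v i‖ ^ 2) * w i = ∑ i, a i * w i - c * ∑ i, w i * ‖v i‖ ^ 2 := by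
        rw [mul_sum, ← sum_sub_distrib]; apply sum_congr rfl; intro i _; ring
      rw [this]; ring
    have hVV : VV (fun i => Real.sqrt (1 - c) • v i) l = (1 - c) * VV v l := by
      unfold VV
      rw [hLL]
      have : ∑ i, l i * ‖Real.sqrt (1 - c) • v i‖ ^ 2 = (1 - c) * ∑ i, l i * ‖v i‖ ^ 2 := by
        rw [mul_sum]; apply sum_congr rfl; intro i _
        rw [norm_smul, mul_pow, Real.norm_eq_abs, sq_abs, Real.sq_sqrt hk]; ring
      rw [this]; ring
    have h1 := one_step S (fun i => Real.sqrt (1 - c) • v i) (fun i => a i - c * ‖v i‖ ^ 2)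
      (by
        rintro w hw ⟨j, hj, hj0⟩
        rw [hq]
        have := ih (S.erase j) (by rw [card_erase_of_mem hj, hS]; rfl)
          (fun T hT => h T (hT.trans (erase_subset _ _))) w
          ⟨hw.1, fun i hi => by
            by_cases hij : i = j
            · rw [hij]; exact hj0
            · exact hw.2.1 i (fun hiS => hi (mem_erase.2 ⟨hij, hiS⟩)), hw.2.2⟩
        linarith) l hl
    rw [hq, hVV, hS] at h1
    push_cast at h1 ⊢
    have hm0 : (0 : ℝ) < m := by linarith
    have e : ((m : ℝ) + 1 - r) / (r * ((m : ℝ) + 1 - 1)) = c + (1 - c) / (m : ℝ) ^ 2 := by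
      rcases hm1.lt_or_eq with h2 | h2
      · rw [hc]
        have : (m : ℝ) - 1 ≠ 0 := by linarith
        have : (m : ℝ) + 1 - 1 = m := by ring
        rw [this]
        field_simp
        ring
      · have h3 : (r : ℝ) = 1 := by linarith
        rw [hc, ← h2, h3]; norm_num
    rw [e]
    have h2 : qq v a l - c * VV v l ≤ (1 - c) / (m : ℝ) ^ 2 * VV v l := by
      rw [div_mul_eq_mul_div (1 - c), le_div_iff₀ (by positivity)]
      have : (m : ℝ) + 1 - 1 = m := by ring
      rw [this] at h1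
      linarith
    linarith

end Aux

end Pool.Agent.H101.BF
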