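import Pool.Agent.H101.BF.Descent

/-! The equality case of one step of the descent: the points form a regular simplex. -/

set_option autoImplicit false

namespace Pool.Agent.H101.BF

open Finset
variable {ι : Type*} [Fintype ι] [DecidableEq ι] {E : Type*} [NormedAddCommGroup E]
  [InnerProductSpace ℝ E]

omit [DecidableEq ι] in
theorem mem_univ_Spx {w : ι → ℝ} (h0 : ∀ i, 0 ≤ w i) (h1 : ∑ i, w i = 1) :
    w ∈ Spx (univ : Finset ι) := ⟨h0, fun i hi => absurd (mem_univ i) hi, h1⟩

omit [Fintype ι] [DecidableEq ι] in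
/-- if `A + t B ≥ 0` up to a quadratic error then `B ≥ 0` -/
theorem nonneg_of_small {b c T : ℝ} (hT : 0 < T) (h : ∀ t, 0 < t → t ≤ T → 0 ≤ t * b + t ^ 2 * c) :
    0 ≤ b := by
  by_contra hb
  push Not at hb
  have hc : 0 < |c| + 1 := by positivity
  set t := min T (-b / (2 * (|c| + 1))) with ht
  have ht0 : 0 < t := lt_min hT (div_pos (by linarith) (by positivity))
  have h1 := h t ht0 (min_le_left _ _)
  have h2 : t * (2 * (|c| + 1)) ≤ -b := by
    rw [← le_div_iff₀ (by positivity)]; exact min_le_right _ _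
  have h3 : c ≤ |c| := le_abs_self c
  have h4 : t * b + t ^ 2 * c ≤ t * b + t ^ 2 * |c| := by
    have := mul_le_mul_of_nonneg_left h3 (sq_nonneg t); linarith
  have h5 : t * b + t ^ 2 * |c| = t * (b + t * |c|) := by ring
  have h6 : b + t * |c| < 0 := by
    have : t * |c| ≤ t * (|c| + 1) := by nlinarith
    nlinarith
  have h7 := mul_neg_of_pos_of_neg ht0 h6
  linarith

/-- the unit weight difference `e_i - e_j` -/
def dd (i j : ι) : ι → ℝ := fun m => (if m = i then 1 else 0) - (if m = j then 1 else 0)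

theorem LL_dd (v : ι → E) (i j : ι) : LL v (dd i j) = v i - v j := by
  simp [LL, dd, sub_smul, sum_sub_distrib]

theorem sum_dd (i j : ι) : ∑ m, dd i j m = 0 := by
  simp [dd, sum_sub_distrib]

omit [DecidableEq ι] in
theorem LL_sub (v : ι → E) (g u : ι → ℝ) :
    LL v (fun i => g i - u i) = LL v g - LL v u := by
  simp only [LL, sub_smul, sum_sub_distrib]

/-- first-order condition at a boundary point where `qq` vanishes: moving from `j` to `i` inside
the boundary does not increase the ball's power -/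
theorem first_order (v : ι → E) (a : ι → ℝ) (g z : ι → ℝ) (R : ℝ)
    (hb : ∀ w ∈ Spx (univ : Finset ι), (∃ j, w j = 0) → qq v a w ≤ 0)
    (hq : ∀ u : ι → ℝ, ∑ i, u i = 0 → qq v a (fun i => g i + u i) = R - ‖LL v u‖ ^ 2)
    (hg : ∑ i, g i = 1)
    (hz : z ∈ Spx (univ : Finset ι)) (hz0 : ‖LL v (fun i => z i - g i)‖ ^ 2 = R)
    (i j m : ι) (hij : i ≠ j) (hj : 0 < z j) (hm : z m = 0) (hmi : m ≠ i) :
    0 ≤ inner ℝ (LL v (fun i => z i - g i)) (v i - v j) := by
  have hmj : m ≠ j := by rintro rfl; linarith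
  have key := nonneg_of_small (b := inner ℝ (LL v (fun i => z i - g i)) (v i - v j))
    (c := ‖v i - v j‖ ^ 2 / 2) (T := z j) hj ?_
  · exact key
  intro t ht htT
  have hmem : (fun l => z l + t * dd i j l) ∈ Spx (univ : Finset ι) := by
    refine mem_univ_Spx (fun l => ?_) ?_
    · have := hz.1 l
      unfold dd
      by_cases h1 : l = i
      · by_cases h2 : l = j
        · exact absurd (h1.symm.trans h2) hij
        · simp only [if_pos h1, if_neg h2]; linarith
      · by_cases h2 : l = j
        · simp only [if_neg h1, if_pos h2]; rw [h2]; linarith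
        · simp only [if_neg h1, if_neg h2]; linarith
    · rw [sum_add_distrib, ← mul_sum, sum_dd, hz.2.2]; ring
  have h0 := hb _ hmem ⟨m, by simp [dd, hm, hmi, hmj]⟩
  have e1 : (fun l => z l + t * dd i j l) = fun l => g l + (z l - g l + t * dd i j l) := by
    funext l; ring
  have hs : ∑ l, (z l - g l + t * dd i j l) = 0 := by
    rw [sum_add_distrib, sum_sub_distrib, ← mul_sum, sum_dd, hz.2.2, hg]; ring
  rw [e1, hq _ hs] at h0
  have e2 : LL v (fun l => z l - g l + t * dd i j l) =
      LL v (fun l => z l - g l) + t • (v i - v j) := by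
    rw [LL_add_smul v (fun l => z l - g l) (dd i j) t, LL_dd]
  rw [e2, norm_add_sq_real, hz0, inner_smul_right, norm_smul, mul_pow, Real.norm_eq_abs,
    sq_abs] at h0
  linarith

theorem one_step_eq (v : ι → E) (a : ι → ℝ) (hN : 3 ≤ Fintype.card ι)
    (hb : ∀ w ∈ Spx (univ : Finset ι), (∃ j, w j = 0) → qq v a w ≤ 0) (l : ι → ℝ)
    (hl : l ∈ Spx (univ : Finset ι)) (hq : 0 < qq v a l)
    (heq : VV v l = ((Fintype.card ι : ℝ) - 1) ^ 2 * qq v a l) :
    (∀ i, l i = 1 / (Fintype.card ι : ℝ)) ∧
    (∀ i, ‖v i - LL v l‖ ^ 2 = ((Fintype.card ι : ℝ) - 1) ^ 2 * qq v a l) ∧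
    ∀ i j, i ≠ j → inner ℝ (v i - LL v l) (v j - LL v l) =
      -(((Fintype.card ι : ℝ) - 1) * qq v a l) := by
  set N : ℝ := (Fintype.card ι : ℝ) with hNdef
  have hN3 : (3 : ℝ) ≤ N := by rw [hNdef]; exact_mod_cast hN
  have hV := VV_eq v l hl.2.2
  obtain ⟨g, hg, hmax⟩ := (Spx_compact (univ : Finset ι)).exists_isMaxOn ⟨l, hl⟩
    (qq_cont v a).continuousOn
  have hR : 0 < qq v a g := lt_of_lt_of_le hq (hmax hl)
  have hpos : ∀ w ∈ Spx (univ : Finset ι), 0 < qq v a w → ∀ i, 0 < w i := by
    intro w hw h i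
    rcases (hw.1 i).lt_or_eq with h1 | h1
    · exact h1
    · have := hb w hw ⟨i, h1.symm⟩; linarith
  have hgp := hpos g hg hR
  have hlp := hpos l hl hq
  have hLneg : ∀ u : ι → ℝ, LL v (fun i => -u i) = -LL v u := by
    intro u; simp [LL]
  have hlin1 : ∀ u : ι → ℝ, ∑ i, u i = 0 →
      ∑ i, a i * u i - 2 * inner ℝ (LL v g) (LL v u) ≤ 0 := by
    intro u hus
    by_cases hneg : ∃ i, u i < 0
    · obtain ⟨i, hi⟩ := hneg
      obtain ⟨t, ht, -, hin, -⟩ := exit_time univ g u hg (fun i _ => hgp i)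
        (fun i hi => absurd (mem_univ i) hi) hus i hi
      by_contra hc
      push Not at hc
      set A := ∑ i, a i * u i - 2 * inner ℝ (LL v g) (LL v u) with hA
      set B := ‖LL v u‖ ^ 2 with hB
      have hB0 : 0 ≤ B := sq_nonneg _
      have hs : 0 < min t (A / (B + 1)) := lt_min ht (by positivity)
      have h1 := hmax (hin _ hs.le (min_le_left _ _))
      simp only [Set.mem_ofPred_eq] at h1
      rw [qq_add, ← hA, ← hB] at h1
      have h2 : min t (A / (B + 1)) * (B + 1) ≤ A := by
        rw [← le_div_iff₀ (by positivity)]; exact min_le_right _ _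
      nlinarith
    · push Not at hneg
      have : ∀ i, u i = 0 := by
        intro i
        have := (sum_eq_zero_iff_of_nonneg (fun i _ => hneg i)).1 hus i (mem_univ _)
        exact this
      simp [this, LL]
  have hlin : ∀ u : ι → ℝ, ∑ i, u i = 0 →
      ∑ i, a i * u i - 2 * inner ℝ (LL v g) (LL v u) = 0 := by
    intro u hus
    have h1 := hlin1 u hus
    have h2 := hlin1 (fun i => -u i) (by simp [hus])
    rw [hLneg, inner_neg_right] at h2
    simp only [mul_neg, sum_neg_distrib] at h2
    linarith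
  -- `qq` is a ball's power around `LL v g`
  have hball : ∀ u : ι → ℝ, ∑ i, u i = 0 →
      qq v a (fun i => g i + u i) = qq v a g - ‖LL v u‖ ^ 2 := by
    intro u hus
    have := qq_add v a g u 1
    rw [hlin u hus] at this
    simp only [one_mul] at this
    rw [this]; ring
  have claim1 : ∀ u : ι → ℝ, ∑ i, u i = 0 → ∀ i, u i < 0 →
      u i ^ 2 * qq v a g ≤ g i ^ 2 * ‖LL v u‖ ^ 2 := by
    intro u hus i hi
    obtain ⟨t, ht, hti, hin, j, hj, hj0⟩ := exit_time univ g u hg (fun i _ => hgp i)
      (fun i hi => absurd (mem_univ i) hi) hus i hi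
    have h1 := hb _ (hin t ht.le le_rfl) ⟨j, hj0⟩
    rw [qq_add, hlin u hus] at h1
    have h2 : qq v a g ≤ t ^ 2 * ‖LL v u‖ ^ 2 := by linarith
    have h3 : (t * (-u i)) ^ 2 ≤ g i ^ 2 :=
      pow_le_pow_left₀ (mul_nonneg ht.le (by linarith)) hti 2
    calc u i ^ 2 * qq v a g ≤ u i ^ 2 * (t ^ 2 * ‖LL v u‖ ^ 2) :=
          mul_le_mul_of_nonneg_left h2 (sq_nonneg _)
      _ = (t * (-u i)) ^ 2 * ‖LL v u‖ ^ 2 := by ring
      _ ≤ _ := mul_le_mul_of_nonneg_right h3 (sq_nonneg _)
  have claim : ∀ u : ι → ℝ, ∑ i, u i = 0 → ∀ i,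
      u i ^ 2 * qq v a g ≤ g i ^ 2 * ‖LL v u‖ ^ 2 := by
    intro u hus i
    rcases lt_trichotomy (u i) 0 with h | h | h
    · exact claim1 u hus i h
    · rw [h]; simp; positivity
    · have := claim1 (fun i => -u i) (by simp [hus]) i (by simpa using h)
      rw [hLneg, norm_neg] at this
      simpa using this
  -- direction from g to l
  have hss : ∑ i, (l i - g i) = 0 := by rw [sum_sub_distrib, hl.2.2, hg.2.2]; ring
  have hql : qq v a l = qq v a g - ‖LL v (fun i => l i - g i)‖ ^ 2 := by
    have := hball (fun i => l i - g i) hss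
    simp only [add_sub_cancel] at this
    exact this
  have hB : ∀ i, g i ^ 2 * qq v a l ≤ qq v a g * (l i * (2 * g i - l i)) := by
    intro i
    have := claim _ hss i
    rw [hql]; nlinarith
  have hA : ∀ i, (1 - l i) ^ 2 * qq v a g ≤ g i ^ 2 * ‖v i - LL v l‖ ^ 2 := by
    intro i
    have := claim (fun j => (if j = i then 1 else 0) - l j)
      (by rw [sum_sub_distrib, hl.2.2]; simp) i
    have e : LL v (fun j => (if j = i then 1 else 0) - l j) = v i - LL v l := by
      simp [LL, sub_smul, sum_sub_distrib]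
    rw [e] at this
    simpa using this
  have hb0 : ∀ i, 0 ≤ 2 * g i - l i := by
    intro i
    have h1 := hB i
    have h2 : 0 ≤ g i ^ 2 * qq v a l := by positivity
    have h3 : 0 ≤ qq v a g * (l i * (2 * g i - l i)) := le_trans h2 h1
    have h4 := nonneg_of_mul_nonneg_right h3 hR
    exact nonneg_of_mul_nonneg_right h4 (hlp i)
  -- `x`, `q`, `R`
  obtain ⟨x, hx⟩ : ∃ x, x = LL v l := ⟨_, rfl⟩
  obtain ⟨q, hqd⟩ : ∃ q, q = qq v a l := ⟨_, rfl⟩
  obtain ⟨R, hRd⟩ : ∃ R, R = qq v a g := ⟨_, rfl⟩
  rw [← hx] at hA hV ⊢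
  rw [← hqd] at hB hq heq hql ⊢
  rw [← hRd] at hB hA hR hql claim hball
  have hC : ∀ i, (1 - l i) ^ 2 * q ≤ (2 * g i - l i) * (l i * ‖v i - x‖ ^ 2) := by
    intro i
    have h1 := mul_le_mul_of_nonneg_right (hA i) hq.le
    have h2 := mul_le_mul_of_nonneg_right (hB i) (sq_nonneg ‖v i - x‖)
    have h3 : R * ((1 - l i) ^ 2 * q) ≤ R * ((2 * g i - l i) * (l i * ‖v i - x‖ ^ 2)) := by
      nlinarith
    exact le_of_mul_le_mul_left h3 hR
  have hl1 : ∀ i, l i < 1 := by
    intro i
    have hcard : 1 < Fintype.card ι := by omega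
    obtain ⟨j, hj⟩ := Fintype.exists_ne_of_one_lt_card hcard i
    have h1 : l i + l j ≤ ∑ m, l m := by
      have h2 : ∑ m ∈ ({i, j} : Finset ι), l m ≤ ∑ m, l m :=
        sum_le_sum_of_subset_of_nonneg (subset_univ _) fun m _ _ => hl.1 m
      rwa [sum_pair hj.symm] at h2
    rw [hl.2.2] at h1
    linarith [hlp j]
  -- the two deficits
  have hNq : 0 < (N - 1) * q := mul_pos (by linarith) hq
  have hAB : ∀ i, 0 ≤ ((N - 1) * (2 * g i - l i) - (1 - l i)) +
      (l i * ‖v i - x‖ ^ 2 / ((N - 1) * q) - (1 - l i)) := by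
    intro i
    set F := (N - 1) * (2 * g i - l i) with hF
    set H := l i * ‖v i - x‖ ^ 2 / ((N - 1) * q) with hH
    have hF0 : 0 ≤ F := mul_nonneg (by linarith) (hb0 i)
    have hH0 : 0 ≤ H := div_nonneg (mul_nonneg (hl.1 i) (sq_nonneg _)) hNq.le
    have hFH : (1 - l i) ^ 2 ≤ F * H := by
      have h1 : F * H = ((2 * g i - l i) * (l i * ‖v i - x‖ ^ 2)) / q := by
        rw [hF, hH]
        have hN1 : N - 1 ≠ 0 := by linarith
        field_simp
      rw [h1, le_div_iff₀ hq]; exact hC i
    have hs0 : 0 ≤ 1 - l i := by linarith [hl1 i]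
    have h2 : (2 * (1 - l i)) ^ 2 ≤ (F + H) ^ 2 := by nlinarith [sq_nonneg (F - H)]
    have h3 := abs_le_of_sq_le_sq' h2 (by linarith)
    linarith [h3.2]
  have hsumAB : ∑ i, (((N - 1) * (2 * g i - l i) - (1 - l i)) +
      (l i * ‖v i - x‖ ^ 2 / ((N - 1) * q) - (1 - l i))) = 0 := by
    have hN1 : N - 1 ≠ 0 := by linarith
    have s1 : ∑ i, (N - 1) * (2 * g i - l i) = N - 1 := by
      rw [← mul_sum, sum_sub_distrib, ← mul_sum, hl.2.2, hg.2.2]; ring
    have s2 : ∑ i, (1 - l i) = N - 1 := by
      rw [sum_sub_distrib, hl.2.2, sum_const, card_univ, nsmul_eq_mul, ← hNdef]; ring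
    have s3 : ∑ i, l i * ‖v i - x‖ ^ 2 / ((N - 1) * q) = N - 1 := by
      rw [← sum_div, ← hV, heq]
      field_simp
    have t1 : ∑ i, ((N - 1) * (2 * g i - l i) - (1 - l i)) = 0 := by
      rw [sum_sub_distrib, s1, s2]; ring
    have t2 : ∑ i, (l i * ‖v i - x‖ ^ 2 / ((N - 1) * q) - (1 - l i)) = 0 := by
      rw [sum_sub_distrib, s3, s2]; ring
    rw [sum_add_distrib, t1, t2, add_zero]
  have hAB0 : ∀ i, ((N - 1) * (2 * g i - l i) - (1 - l i)) +
      (l i * ‖v i - x‖ ^ 2 / ((N - 1) * q) - (1 - l i)) = 0 := fun i =>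
    (sum_eq_zero_iff_of_nonneg (fun i _ => hAB i)).1 hsumAB i (mem_univ i)
  have hAz : ∀ i, (N - 1) * (2 * g i - l i) = 1 - l i := by
    intro i
    set F := (N - 1) * (2 * g i - l i) with hF
    set H := l i * ‖v i - x‖ ^ 2 / ((N - 1) * q) with hH
    have hFH : (1 - l i) ^ 2 ≤ F * H := by
      have h1 : F * H = ((2 * g i - l i) * (l i * ‖v i - x‖ ^ 2)) / q := by
        rw [hF, hH]
        have hN1 : N - 1 ≠ 0 := by linarith
        field_simp
      rw [h1, le_div_iff₀ hq]; exact hC i
    have h1 : H = 2 * (1 - l i) - F := by linarith [hAB0 i]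
    rw [h1] at hFH
    have h2 : (F - (1 - l i)) ^ 2 ≤ 0 := by nlinarith
    have h3 : F - (1 - l i) = 0 := pow_eq_zero_iff (two_ne_zero) |>.1 (le_antisymm h2 (sq_nonneg _))
    linarith
  have hBz : ∀ i, l i * ‖v i - x‖ ^ 2 = (1 - l i) * ((N - 1) * q) := by
    intro i
    have h1 : l i * ‖v i - x‖ ^ 2 / ((N - 1) * q) = 1 - l i := by
      linarith [hAB0 i, hAz i]
    rw [div_eq_iff hNq.ne'] at h1
    exact h1
  -- equality in the claim for the direction from g to l
  have hEq : ∀ i, (l i - g i) ^ 2 * R = g i ^ 2 * ‖LL v (fun i => l i - g i)‖ ^ 2 := by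
    intro i
    have hD : 0 < ‖v i - x‖ ^ 2 := by
      have h1 : 0 < (1 - l i) * ((N - 1) * q) := mul_pos (by linarith [hl1 i]) hNq
      rw [← hBz i] at h1
      exact (pos_iff_pos_of_mul_pos h1).1 (hlp i)
    have h1 := mul_le_mul_of_nonneg_right (hA i) hq.le
    -- R s² q ≤ g² D q ≤ R l (2g - l) D, and s² q = l (2g-l) D
    have h2 : (1 - l i) ^ 2 * q = (2 * g i - l i) * (l i * ‖v i - x‖ ^ 2) := by
      rw [hBz i]
      have h3 := hAz i
      calc (1 - l i) ^ 2 * q = (1 - l i) * ((1 - l i) * q) := by ring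
        _ = ((N - 1) * (2 * g i - l i)) * ((1 - l i) * q) := by rw [h3]
        _ = _ := by ring
    have h3 : g i ^ 2 * q * ‖v i - x‖ ^ 2 ≥ (R * (l i * (2 * g i - l i))) * ‖v i - x‖ ^ 2 := by
      have : (R * (l i * (2 * g i - l i))) * ‖v i - x‖ ^ 2 = ((1 - l i) ^ 2 * R) * q := by
        calc (R * (l i * (2 * g i - l i))) * ‖v i - x‖ ^ 2
            = R * ((2 * g i - l i) * (l i * ‖v i - x‖ ^ 2)) := by ring
          _ = R * ((1 - l i) ^ 2 * q) := by rw [h2]
          _ = _ := by ring
      rw [this]; nlinarith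
    have h4 : g i ^ 2 * q = R * (l i * (2 * g i - l i)) :=
      le_antisymm (hB i) (le_of_mul_le_mul_right h3 hD)
    have h5 : ‖LL v (fun i => l i - g i)‖ ^ 2 = R - q := by linarith
    rw [h5]; nlinarith
  -- hence l = g
  have hlg : ∀ i, l i = g i := by
    by_contra hcon
    push Not at hcon
    obtain ⟨i0, hi0⟩ := hcon
    obtain ⟨W, hW⟩ : ∃ W, W = LL v (fun i => l i - g i) := ⟨_, rfl⟩
    rw [← hW] at hEq
    have hW0 : 0 < ‖W‖ := by
      rcases (norm_nonneg W).lt_or_eq with h | h
      · exact h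
      · exfalso
        have h1 := hEq i0
        rw [← h] at h1
        have h2 : (l i0 - g i0) ^ 2 * R = 0 := by rw [h1]; ring
        have h3 : (l i0 - g i0) ^ 2 = 0 := by
          rcases mul_eq_zero.1 h2 with h4 | h4
          · exact h4
          · exact absurd h4 hR.ne'
        apply hi0
        have := pow_eq_zero_iff (two_ne_zero) |>.1 h3
        linarith
    obtain ⟨s, hs0, hsR⟩ : ∃ s : ℝ, 0 < s ∧ s ^ 2 * R = ‖W‖ ^ 2 := by
      refine ⟨‖W‖ / Real.sqrt R, div_pos hW0 (Real.sqrt_pos.2 hR), ?_⟩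
      rw [div_pow, Real.sq_sqrt hR.le, div_mul_cancel₀ _ hR.ne']
    have hpm : ∀ i, l i - g i = s * g i ∨ l i - g i = -(s * g i) := by
      intro i
      apply sq_eq_sq_iff_eq_or_eq_neg.1
      have h1 := hEq i
      rw [← hsR] at h1
      have h2 : (l i - g i) ^ 2 * R = (s * g i) ^ 2 * R := by rw [h1]; ring
      exact mul_right_cancel₀ hR.ne' h2
    -- one of the two signs occurs twice
    have main : ∀ (σ : ℝ) (_ : σ = 1 ∨ σ = -1), ∀ i j, i ≠ j →
        σ * (l i - g i) = -(s * g i) → σ * (l j - g j) = -(s * g j) → False := by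
      intro σ hσ i j hij hi hj
      have hσ2 : σ ^ 2 = 1 := by rcases hσ with h | h <;> rw [h] <;> norm_num
      set z : ι → ℝ := fun m => g m + (1 / s) * (σ * (l m - g m)) with hz
      have hpm' : ∀ m, σ * (l m - g m) = s * g m ∨ σ * (l m - g m) = -(s * g m) := by
        intro m
        rcases hσ with h | h
        · rw [h, one_mul]; exact hpm m
        · rw [h]
          rcases hpm m with h1 | h1
          · right; rw [h1]; ring
          · left; rw [h1]; ring
      have hzv : ∀ m, (σ * (l m - g m) = s * g m ∧ z m = 2 * g m) ∨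
          (σ * (l m - g m) = -(s * g m) ∧ z m = 0) := by
        intro m
        rcases hpm' m with h | h
        · left; refine ⟨h, ?_⟩; rw [hz]; simp only; rw [h]; field_simp; ring
        · right; refine ⟨h, ?_⟩; rw [hz]; simp only; rw [h]; field_simp; ring
      have hzmem : z ∈ Spx (univ : Finset ι) := by
        refine mem_univ_Spx (fun m => ?_) ?_
        · rcases hzv m with h | h
          · rw [h.2]; linarith [hgp m]
          · rw [h.2]
        · rw [hz, sum_add_distrib, ← mul_sum, ← mul_sum, hss, hg.2.2]; ring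
      have hzg : LL v (fun m => z m - g m) = (σ / s) • W := by
        rw [hW]
        simp only [LL, smul_sum, smul_smul]
        refine sum_congr rfl fun m _ => ?_
        congr 1
        rw [hz]; ring
      have hz0 : ‖LL v (fun m => z m - g m)‖ ^ 2 = R := by
        rw [hzg, norm_smul, mul_pow, Real.norm_eq_abs, sq_abs, div_pow, hσ2, ← hsR]
        field_simp
      have hzi : z i = 0 := by
        rcases hzv i with h | h
        · have : s * g i = -(s * g i) := h.1.symm.trans hi
          have h2 : 0 < s * g i := mul_pos hs0 (hgp i)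
          linarith
        · exact h.2
      have hzj : z j = 0 := by
        rcases hzv j with h | h
        · have : s * g j = -(s * g j) := h.1.symm.trans hj
          have h2 : 0 < s * g j := mul_pos hs0 (hgp j)
          linarith
        · exact h.2
      obtain ⟨m0, hm0⟩ : ∃ m, 0 < z m := by
        by_contra hno
        push Not at hno
        have h1 : ∑ m, z m ≤ 0 := sum_nonpos fun m _ => hno m
        rw [hzmem.2.2] at h1; linarith
      obtain ⟨Z, hZ⟩ : ∃ Z, Z = LL v (fun m => z m - g m) := ⟨_, rfl⟩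
      have hfo := first_order v a g z R hb hball hg.2.2 hzmem hz0
      rw [← hZ] at hfo hz0 hzg
      have hterm : ∀ m, (z m - g m) * inner ℝ Z (v m - v m0) ≤ 0 := by
        intro m
        rcases hzv m with h | h
        · -- positive coordinate
          by_cases hmm : m = m0
          · rw [hmm, sub_self, inner_zero_right, mul_zero]
          · have hzm : 0 < z m := by rw [h.2]; linarith [hgp m]
            have h1 := hfo m0 m i (fun h => hmm h.symm) hzm hzi (by rintro rfl; linarith)
            have h2 : inner ℝ Z (v m - v m0) = -inner ℝ Z (v m0 - v m) := by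
              rw [← inner_neg_right, neg_sub]
            rw [h2]
            have h3 : 0 ≤ z m - g m := by rw [h.2]; linarith [hgp m]
            nlinarith
        · -- vanishing coordinate
          have hmm : m ≠ m0 := by rintro rfl; linarith [h.2]
          have h1 : 0 ≤ inner ℝ Z (v m - v m0) := by
            by_cases hmi : i = m
            · exact hfo m m0 j hmm hm0 hzj (by rw [← hmi]; exact hij.symm)
            · exact hfo m m0 i hmm hm0 hzi hmi
          have h3 : z m - g m ≤ 0 := by rw [h.2]; linarith [hgp m]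
          exact mul_nonpos_of_nonpos_of_nonneg h3 h1
      have hsumt : ∑ m, (z m - g m) * inner ℝ Z (v m - v m0) = ‖Z‖ ^ 2 := by
        have h1 : ∀ m, (z m - g m) * inner ℝ Z (v m - v m0) =
            inner ℝ Z ((z m - g m) • v m) - (z m - g m) * inner ℝ Z (v m0) := by
          intro m; rw [inner_sub_right, inner_smul_right]; ring
        simp only [h1]
        rw [sum_sub_distrib, ← sum_mul, sum_sub_distrib, hzmem.2.2, hg.2.2, ← inner_sum]
        have h2 : ∑ m, (z m - g m) • v m = Z := by rw [hZ]; rfl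
        rw [h2, real_inner_self_eq_norm_sq]; ring
      have h5 : ‖Z‖ ^ 2 ≤ 0 := by
        rw [← hsumt]; exact sum_nonpos fun m _ => hterm m
      rw [hz0] at h5
      linarith
    -- pigeonhole on three indices
    obtain ⟨i, j, k, hij, hik, hjk⟩ := Fintype.two_lt_card_iff.1 (show 2 < Fintype.card ι by omega)
    have h1 := main 1 (Or.inl rfl)
    have h2 := main (-1) (Or.inr rfl)
    rcases hpm i with hi | hi <;> rcases hpm j with hj | hj <;> rcases hpm k with hk | hk
    · exact h2 i j hij (by rw [hi]; ring) (by rw [hj]; ring)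
    · exact h2 i j hij (by rw [hi]; ring) (by rw [hj]; ring)
    · exact h2 i k hik (by rw [hi]; ring) (by rw [hk]; ring)
    · exact h1 j k hjk (by rw [hj]; ring) (by rw [hk]; ring)
    · exact h2 j k hjk (by rw [hj]; ring) (by rw [hk]; ring)
    · exact h1 i k hik (by rw [hi]; ring) (by rw [hk]; ring)
    · exact h1 i j hij (by rw [hi]; ring) (by rw [hj]; ring)
    · exact h1 i j hij (by rw [hi]; ring) (by rw [hj]; ring)
  have hunif : ∀ i, l i = 1 / N := by
    intro i
    have h1 := hAz i
    rw [← hlg i] at h1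
    rw [eq_div_iff (by linarith)]
    linarith
  have hnorm : ∀ i, ‖v i - x‖ ^ 2 = (N - 1) ^ 2 * q := by
    intro i
    have h1 := hBz i
    rw [hunif i] at h1
    have hN0 : N ≠ 0 := by linarith
    field_simp at h1
    linarith
  refine ⟨hunif, hnorm, ?_⟩
  have hRq : R = q := by
    have h1 : LL v (fun i => l i - g i) = 0 := by
      have : (fun i => l i - g i) = fun _ => (0 : ℝ) := by funext i; rw [hlg i]; ring
      rw [this]; simp [LL]
    rw [h1] at hql
    simp at hql
    linarith
  have hgl : g = l := by funext i; exact (hlg i).symm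
  intro i j hij
  -- barycentre of the facet opposite to `i`
  have hcross : ∀ j m, j ≠ i → m ≠ i → j ≠ m → 0 ≤ inner ℝ (-(v i - x)) (v j - v m) := by
    intro j m hji hmi hjm
    set z : ι → ℝ := fun o => l o + (1 / (N - 1)) * (l o - (if o = i then 1 else 0)) with hz
    have hN1 : 0 < N - 1 := by linarith
    have hzi : z i = 0 := by
      rw [hz]; simp only [if_true, hunif i]; field_simp; ring
    have hzo : ∀ o, o ≠ i → z o = 1 / (N - 1) := by
      intro o ho
      rw [hz]; simp only [if_neg ho, hunif o]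
      have hN0 : N ≠ 0 := by linarith
      field_simp; ring
    have hzmem : z ∈ Spx (univ : Finset ι) := by
      refine mem_univ_Spx (fun o => ?_) ?_
      · by_cases ho : o = i
        · rw [ho, hzi]
        · rw [hzo o ho]; positivity
      · rw [hz, sum_add_distrib, ← mul_sum, sum_sub_distrib, hl.2.2]; simp
    have hzg : LL v (fun o => z o - g o) = (1 / (N - 1)) • (-(v i - x)) := by
      have h1 : (fun o => z o - g o) = fun o => (1 / (N - 1)) * (l o - (if o = i then 1 else 0)) := by
        funext o; rw [hgl, hz]; ring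
      rw [h1, hx]
      simp only [LL, mul_smul, ← smul_sum, sub_smul, sum_sub_distrib]
      congr 1
      simp
    have hz0 : ‖LL v (fun o => z o - g o)‖ ^ 2 = R := by
      rw [hzg, norm_smul, mul_pow, norm_neg, hnorm i, Real.norm_eq_abs, sq_abs, hRq]
      field_simp
    have hfo := first_order v a g z R hb hball hg.2.2 hzmem hz0 j m i hjm
      (by rw [hzo m hmi]; positivity) hzi (fun h => hji h.symm)
    rw [hzg, inner_smul_left] at hfo
    simp only [conj_trivial] at hfo
    exact nonneg_of_mul_nonneg_right hfo (by positivity)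
  have hconst : ∀ m, m ≠ i → inner ℝ (v i - x) (v m - x) = inner ℝ (v i - x) (v j - x) := by
    intro m hm
    by_cases hmj : m = j
    · rw [hmj]
    · have h1 := hcross j m hij.symm hm (fun h => hmj h.symm)
      have h2 := hcross m j hm hij.symm hmj
      rw [inner_neg_left, inner_sub_right] at h1 h2
      rw [inner_sub_right, inner_sub_right]
      linarith
  have hsum0 : ∑ m, inner ℝ (v i - x) (v m - x) = 0 := by
    rw [← inner_sum, sum_sub_distrib]
    have h1 : ∑ m, v m = N • x := by
      rw [hx]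
      simp only [LL, smul_sum, smul_smul]
      refine sum_congr rfl fun m _ => ?_
      rw [hunif m, mul_one_div_cancel (by linarith), one_smul]
    rw [h1, sum_const, card_univ, ← Nat.cast_smul_eq_nsmul ℝ, ← hNdef, sub_self, inner_zero_right]
  have hsplit : ∑ m, inner ℝ (v i - x) (v m - x) =
      ‖v i - x‖ ^ 2 + (N - 1) * inner ℝ (v i - x) (v j - x) := by
    rw [← add_sum_erase univ _ (mem_univ i), real_inner_self_eq_norm_sq]
    congr 1
    have h1 : ∀ m ∈ univ.erase i, inner ℝ (v i - x) (v m - x) = inner ℝ (v i - x) (v j - x) :=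
      fun m hm => hconst m (ne_of_mem_erase hm)
    rw [sum_congr rfl h1, sum_const, card_erase_of_mem (mem_univ i), card_univ, nsmul_eq_mul,
      Nat.cast_sub (by omega), ← hNdef]
    norm_num
  rw [hsplit, hnorm i] at hsum0
  have h9 : (N - 1) * (inner ℝ (v i - x) (v j - x) + (N - 1) * q) = 0 := by linarith
  rcases mul_eq_zero.1 h9 with h | h
  · linarith
  · linarith

end Pool.Agent.H101.BF
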