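import Pool.Agent.H101.BF.Eq

/-! The bound depending on the centre, and its equality case. -/

set_option autoImplicit false

namespace Pool.Agent.H101.BF

open Finset

variable {E : Type*} [NormedAddCommGroup E] [InnerProductSpace ℝ E]

/-- the union of the convex hulls of all sets of `k + 1` of the points -/
def skel {n : ℕ} (p : Fin n → E) (k : ℕ) : Set E :=
  ⋃ (s : Finset (Fin n)) (_ : s.card = k + 1), convexHull ℝ (p '' (s : Set (Fin n)))

theorem qq_ball {n : ℕ} (p : Fin n → E) (x : E) (ρ : ℝ) (u : Fin n → ℝ) (hu : ∑ i, u i = 1) :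
    qq p (fun i => ρ ^ 2 - ‖x‖ ^ 2 + 2 * inner ℝ (p i) x) u = ρ ^ 2 - ‖LL p u - x‖ ^ 2 := by
  unfold qq
  rw [norm_sub_sq_real]
  have : ∑ i, (ρ ^ 2 - ‖x‖ ^ 2 + 2 * inner ℝ (p i) x) * u i =
      (ρ ^ 2 - ‖x‖ ^ 2) * ∑ i, u i + 2 * inner ℝ (LL p u) x := by
    simp only [LL, sum_inner, inner_smul_left, Finset.mul_sum, ← Finset.sum_add_distrib]
    apply Finset.sum_congr rfl; intro i _; simp; ring
  rw [this, hu]; ring

theorem skel_nonpos {n : ℕ} (p : Fin n → E) (x : E) (k : ℕ) (ρ : ℝ) (hρ : 0 < ρ)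
    (hdis : Disjoint (Metric.ball x ρ) (skel p k)) (T : Finset (Fin n)) (hT : T.card = k + 1)
    (u : Fin n → ℝ) (hu : u ∈ Spx T) :
    qq p (fun i => ρ ^ 2 - ‖x‖ ^ 2 + 2 * inner ℝ (p i) x) u ≤ 0 := by
  rw [qq_ball p x ρ u hu.2.2]
  have hmem : LL p u ∈ convexHull ℝ (p '' (T : Set (Fin n))) := by
    have e : LL p u = ∑ i ∈ T, u i • p i := by
      unfold LL
      exact (Finset.sum_subset (Finset.subset_univ _) fun i _ hi => by simp [hu.2.1 i hi]).symm
    rw [e]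
    apply (convex_convexHull ℝ _).sum_mem (fun i _ => hu.1 i)
    · rw [← hu.2.2]; exact Finset.sum_subset (Finset.subset_univ _) fun i _ hi => hu.2.1 i hi
    · intro i hi; exact subset_convexHull ℝ _ ⟨i, hi, rfl⟩
  have hn : LL p u ∉ Metric.ball x ρ := fun hb =>
    Set.disjoint_left.1 hdis hb (Set.mem_iUnion₂.2 ⟨T, hT, hmem⟩)
  rw [Metric.mem_ball, dist_eq_norm, not_lt] at hn
  have := pow_le_pow_left₀ hρ.le hn 2
  linarith

/-- the bound by the variance -/
theorem bound {d k : ℕ} (hk : k < d) (p : Fin (d + 1) → E) (l : Fin (d + 1) → ℝ)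
    (hl : l ∈ Spx (univ : Finset (Fin (d + 1)))) (ρ : ℝ) (hρ : 0 < ρ)
    (hdis : Disjoint (Metric.ball (LL p l) ρ) (skel p k)) :
    ρ ^ 2 ≤ ((d : ℝ) - k) / (d * (k + 1)) * VV p l := by
  have h := multi_step (k + 1) (by omega) p
    (fun i => ρ ^ 2 - ‖LL p l‖ ^ 2 + 2 * inner ℝ (p i) (LL p l)) (d + 1) (by omega) Finset.univ
    (by simp) (fun T _ hT u hu => skel_nonpos p (LL p l) k ρ hρ hdis T hT u hu) l hl
  rw [qq_ball p _ ρ l hl.2.2, sub_self, norm_zero] at h
  push_cast at h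
  have e : ((d : ℝ) + 1 - (k + 1)) / ((k + 1) * ((d : ℝ) + 1 - 1)) =
      ((d : ℝ) - (k : ℝ)) / ((d : ℝ) * ((k : ℝ) + 1)) := by
    congr 1 <;> ring
  rw [e] at h
  linarith

/-- equality in the bound by the variance -/
theorem bound_eq {d k : ℕ} (hk1 : 1 ≤ k) (hk : k < d) (p : Fin (d + 1) → E)
    (l : Fin (d + 1) → ℝ) (hl : l ∈ Spx (univ : Finset (Fin (d + 1)))) (ρ : ℝ) (hρ : 0 < ρ)
    (hdis : Disjoint (Metric.ball (LL p l) ρ) (skel p k))
    (heq : ρ ^ 2 = ((d : ℝ) - k) / (d * (k + 1)) * VV p l) :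
    (∀ i, l i = 1 / ((d : ℝ) + 1)) ∧ (∀ i, ‖p i - LL p l‖ ^ 2 = VV p l) ∧
    ∀ i j, i ≠ j → inner ℝ (p i - LL p l) (p j - LL p l) = -(VV p l / d) := by
  have hkR : (1 : ℝ) ≤ k := by exact_mod_cast hk1
  have hkd : (k : ℝ) + 1 ≤ d := by exact_mod_cast hk
  set a : Fin (d + 1) → ℝ := fun i => ρ ^ 2 - ‖LL p l‖ ^ 2 + 2 * inner ℝ (p i) (LL p l) with ha
  set c : ℝ := ((d : ℝ) - (k + 1)) / ((k + 1) * ((d : ℝ) - 1)) with hc
  have hd1 : (0 : ℝ) < d - 1 := by linarith
  have hc1 : c < 1 := by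
    rw [hc, div_lt_one (by positivity)]
    nlinarith
  have hk' : 0 < 1 - c := by linarith
  have hsq : Real.sqrt (1 - c) ^ 2 = 1 - c := Real.sq_sqrt hk'.le
  have hLLs : ∀ w, LL (fun i => Real.sqrt (1 - c) • p i) w = Real.sqrt (1 - c) • LL p w := by
    intro w
    simp only [LL, smul_sum]; apply sum_congr rfl; intro i _; rw [smul_comm]
  have hLL : ∀ w, ‖LL (fun i => Real.sqrt (1 - c) • p i) w‖ ^ 2 = (1 - c) * ‖LL p w‖ ^ 2 := by
    intro w
    rw [hLLs, norm_smul, mul_pow, Real.norm_eq_abs, sq_abs, hsq]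
  have hq : ∀ w, qq (fun i => Real.sqrt (1 - c) • p i) (fun i => a i - c * ‖p i‖ ^ 2) w =
      qq p a w - c * VV p w := by
    intro w
    unfold qq VV
    rw [hLL]
    have : ∑ i, (a i - c * ‖p i‖ ^ 2) * w i = ∑ i, a i * w i - c * ∑ i, w i * ‖p i‖ ^ 2 := by
      rw [mul_sum, ← sum_sub_distrib]; apply sum_congr rfl; intro i _; ring
    rw [this]; ring
  have hVV : VV (fun i => Real.sqrt (1 - c) • p i) l = (1 - c) * VV p l := by
    unfold VV
    rw [hLL]
    have : ∑ i, l i * ‖Real.sqrt (1 - c) • p i‖ ^ 2 = (1 - c) * ∑ i, l i * ‖p i‖ ^ 2 := by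
      rw [mul_sum]; apply sum_congr rfl; intro i _
      rw [norm_smul, mul_pow, Real.norm_eq_abs, sq_abs, hsq]; ring
    rw [this]; ring
  have hql : qq p a l = ρ ^ 2 := by
    rw [ha, qq_ball p _ ρ l hl.2.2, sub_self, norm_zero]; ring
  have hb : ∀ w ∈ Spx (univ : Finset (Fin (d + 1))), (∃ j, w j = 0) →
      qq (fun i => Real.sqrt (1 - c) • p i) (fun i => a i - c * ‖p i‖ ^ 2) w ≤ 0 := by
    rintro w hw ⟨j, hj0⟩
    rw [hq]
    have := multi_step (k + 1) (by omega) p a d (by omega) (univ.erase j)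
      (by rw [card_erase_of_mem (mem_univ j)]; simp)
      (fun T _ hT u hu => skel_nonpos p (LL p l) k ρ hρ hdis T hT u hu) w
      ⟨hw.1, fun i hi => by
        by_cases hij : i = j
        · rw [hij]; exact hj0
        · exact absurd (mem_erase.2 ⟨hij, mem_univ i⟩) hi, hw.2.2⟩
    push_cast at this
    rw [← hc] at this
    linarith
  have hVpos : 0 < VV p l := by
    by_contra hcon
    push Not at hcon
    have h1 : ((d : ℝ) - k) / (d * (k + 1)) * VV p l ≤ 0 :=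
      mul_nonpos_of_nonneg_of_nonpos (div_nonneg (by linarith) (by positivity)) hcon
    have h2 : 0 < ρ ^ 2 := by positivity
    linarith
  have hd0 : (0 : ℝ) < d := by linarith
  have hC : ((d : ℝ) - k) / (d * (k + 1)) = c + (1 - c) / (d : ℝ) ^ 2 := by
    rw [hc]
    have : (d : ℝ) - 1 ≠ 0 := hd1.ne'
    field_simp
    ring
  have hq' : qq (fun i => Real.sqrt (1 - c) • p i) (fun i => a i - c * ‖p i‖ ^ 2) l =
      (1 - c) / (d : ℝ) ^ 2 * VV p l := by
    rw [hq, hql, heq, hC]; ring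
  have hcard : (Fintype.card (Fin (d + 1)) : ℝ) = d + 1 := by simp
  obtain ⟨h1, h2, h3⟩ := one_step_eq (fun i => Real.sqrt (1 - c) • p i)
    (fun i => a i - c * ‖p i‖ ^ 2) (by simp; omega) hb l hl
    (by rw [hq']; positivity)
    (by
      rw [hVV, hq', hcard]
      field_simp
      ring)
  rw [hcard] at h1 h2 h3
  rw [hq'] at h2 h3
  have hdiff : ∀ i, Real.sqrt (1 - c) • p i - LL (fun i => Real.sqrt (1 - c) • p i) l =
      Real.sqrt (1 - c) • (p i - LL p l) := by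
    intro i; rw [hLLs, smul_sub]
  refine ⟨h1, fun i => ?_, fun i j hij => ?_⟩
  · have h4 := h2 i
    rw [hdiff, norm_smul, mul_pow, Real.norm_eq_abs, sq_abs, hsq] at h4
    have h5 : ((d : ℝ) + 1 - 1) ^ 2 * ((1 - c) / (d : ℝ) ^ 2 * VV p l) = (1 - c) * VV p l := by
      field_simp
      ring
    rw [h5] at h4
    exact mul_left_cancel₀ hk'.ne' h4
  · have h4 := h3 i j hij
    rw [hdiff, hdiff, inner_smul_left, inner_smul_right] at h4
    simp only [conj_trivial] at h4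
    rw [← mul_assoc, ← sq, hsq] at h4
    have h5 : -(((d : ℝ) + 1 - 1) * ((1 - c) / (d : ℝ) ^ 2 * VV p l)) =
        (1 - c) * (-(VV p l / d)) := by
      field_simp
      ring
    rw [h5] at h4
    exact mul_left_cancel₀ hk'.ne' h4

/-- the regular simplex: its `k`-skeleton avoids the ball -/
theorem regular_disjoint {d k : ℕ} (hk : k < d) (p : Fin (d + 1) → E)
    (hreg : ∀ i j, inner ℝ (p i) (p j) = if i = j then (1 : ℝ) else -1 / d) :
    Disjoint (Metric.ball (0 : E) (Real.sqrt (((d : ℝ) - k) / (d * (k + 1))))) (skel p k) := by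
  have hd0 : (0 : ℝ) < d := by
    have : 0 < d := by omega
    exact_mod_cast this
  rw [Set.disjoint_left]
  intro y hy hys
  obtain ⟨T, hT, hyT⟩ := Set.mem_iUnion₂.1 hys
  rw [Metric.mem_ball, dist_zero_right] at hy
  have hy2 : ‖y‖ ^ 2 < ((d : ℝ) - k) / (d * (k + 1)) := by
    have h1 := Real.lt_sqrt (norm_nonneg y) |>.1 hy
    exact h1
  classical
  -- `y` is a convex combination of the points of `T`
  obtain ⟨u, hu0, hu1, hy3⟩ : ∃ u : Fin (d + 1) → ℝ, (∀ i, i ∉ T → u i = 0) ∧ ∑ i, u i = 1 ∧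
      ∑ i, u i • p i = y := by
    have hsub : convexHull ℝ (p '' (T : Set (Fin (d + 1)))) ⊆
        {y | ∃ u : Fin (d + 1) → ℝ, (∀ i, i ∉ T → u i = 0) ∧ ∑ i, u i = 1 ∧
          ∑ i, u i • p i = y} := by
      refine convexHull_min ?_ ?_
      · rintro _ ⟨i, hi, rfl⟩
        refine ⟨fun j => if j = i then 1 else 0, fun j hj => ?_, by simp, by simp⟩
        have hji : j ≠ i := by rintro rfl; exact hj hi
        simp [hji]
      · rintro y1 ⟨u1, h1, h2, h3⟩ y2 ⟨u2, h4, h5, h6⟩ α β _ _ hαβ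
        refine ⟨fun i => α * u1 i + β * u2 i, fun i hi => by simp [h1 i hi, h4 i hi], ?_, ?_⟩
        · rw [sum_add_distrib, ← mul_sum, ← mul_sum, h2, h5]; linarith
        · rw [← h3, ← h6, smul_sum, smul_sum, ← sum_add_distrib]
          refine sum_congr rfl fun i _ => ?_
          rw [add_smul, mul_smul, mul_smul]
    exact hsub hyT
  have hn : ‖y‖ ^ 2 = (1 + 1 / (d : ℝ)) * ∑ i, u i ^ 2 - 1 / d := by
    rw [← hy3, ← real_inner_self_eq_norm_sq, sum_inner]
    have h1 : ∀ i, inner ℝ (u i • p i) (∑ j, u j • p j) =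
        (1 + 1 / (d : ℝ)) * u i ^ 2 - 1 / d * u i := by
      intro i
      rw [inner_sum]
      have h2 : ∀ j, inner ℝ (u i • p i) (u j • p j) =
          (if i = j then (1 + 1 / (d : ℝ)) * (u i * u j) else 0) - 1 / d * (u i * u j) := by
        intro j
        rw [inner_smul_left, inner_smul_right, hreg i j]
        simp only [conj_trivial]
        split_ifs with h
        · ring
        · ring
      rw [sum_congr rfl fun j _ => h2 j, sum_sub_distrib, sum_ite_eq, if_pos (mem_univ i),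
        ← mul_sum, ← mul_sum, hu1]
      ring
    rw [sum_congr rfl fun i _ => h1 i, sum_sub_distrib, ← mul_sum, ← mul_sum, hu1, mul_one]
  have hcs : 1 ≤ ((k : ℝ) + 1) * ∑ i, u i ^ 2 := by
    have h1 : ∑ i ∈ T, u i = 1 := by
      rw [← hu1]; exact sum_subset (subset_univ _) fun i _ hi => hu0 i hi
    have h2 : ∑ i ∈ T, u i ^ 2 = ∑ i, u i ^ 2 :=
      sum_subset (subset_univ _) fun i _ hi => by rw [hu0 i hi]; ring
    have h3 := sq_sum_le_card_mul_sum_sq (s := T) (f := u)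
    rw [h1, h2, hT] at h3
    push_cast at h3
    linarith
  have hk0 : (0 : ℝ) < (k : ℝ) + 1 := by positivity
  have hfin : ((d : ℝ) - k) / (d * (k + 1)) ≤ (1 + 1 / (d : ℝ)) * ∑ i, u i ^ 2 - 1 / d := by
    have h1 : 1 / ((k : ℝ) + 1) ≤ ∑ i, u i ^ 2 := by
      rw [div_le_iff₀ hk0]; linarith
    have h2 : ((d : ℝ) - k) / (d * (k + 1)) = (1 + 1 / (d : ℝ)) * (1 / ((k : ℝ) + 1)) - 1 / d := by
      field_simp
      ring
    rw [h2]
    have h3 := mul_le_mul_of_nonneg_left h1 (show (0 : ℝ) ≤ 1 + 1 / (d : ℝ) by positivity)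
    linarith
  linarith

end Pool.Agent.H101.BF
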